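import Pool.Agent.Helper71_HNF.StmtR

/-!
# HNF: module CONV
-/

set_option autoImplicit false

namespace Pool.Agent.HNF.H44

open Topology Set Pool.Agent.HNF

theorem conv : ConvStmt := by
  intro G _ _ _ Γ I v g A hA1 hg hn hs c hc
  have hmono : StrictMono c := by
    apply strictMono_nat_of_lt_succ
    intro k
    have h := I.par_lt (c (k + 1)) (hc k).1
    rwa [(hc k).2] at h
  have hcl : ∀ t, {x | ∃ y ∈ closure (A t), x = y * g t} =
      (Homeomorph.mulRight (g t)) '' closure (A t) := by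
    intro t
    ext x
    simp only [mem_setOf_eq, mem_image, Homeomorph.coe_mulRight]
    constructor
    · rintro ⟨y, hy, rfl⟩
      exact ⟨y, hy, rfl⟩
    · rintro ⟨y, hy, rfl⟩
      exact ⟨y, hy, rfl⟩
  have hnest : ∀ k, ∀ x ∈ {x | ∃ y ∈ closure (A (c (k + 1))), x = y * g (c (k + 1))},
      ∃ y ∈ A (c k), x = y * g (c k) := by
    rintro k x ⟨y, hy, rfl⟩
    refine ⟨y * v (c (k + 1)), ?_, ?_⟩
    · have h := hn (c (k + 1)) (hc k).1 y hy
      rwa [(hc k).2] at h
    · rw [hg (c (k + 1)) (hc k).1, (hc k).2, mul_assoc]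
  obtain ⟨x, hx⟩ := Γ.inter (fun k => {x | ∃ y ∈ closure (A (c k)), x = y * g (c k)})
    (fun k => by
      show IsClosed {x | ∃ y ∈ closure (A (c k)), x = y * g (c k)}
      rw [hcl, Homeomorph.isClosed_image]
      exact isClosed_closure)
    (fun k => ⟨1 * g (c k), 1, subset_closure (hA1 _), rfl⟩)
    (fun k x hx => by
      obtain ⟨y, hy, hxy⟩ := hnest k x hx
      exact ⟨y, subset_closure hy, hxy⟩)
    (fun k => Γ.anti _ _ _ hmono.le_apply (hs (c k)))
  refine ⟨x, fun k => ?_⟩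
  obtain ⟨y, hy, hxy⟩ := hnest k x (mem_iInter.1 hx (k + 1))
  have : x * (g (c k))⁻¹ = y := by rw [hxy]; simp
  rwa [this]

end Pool.Agent.HNF.H44
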