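import Pool.Agent.Helper71_HNF.StmtR

/-!
# HNF: module E1LOC
-/

set_option autoImplicit false

namespace Pool.Agent.HNF.H44

open Topology Set Pool.Agent.HNF

section

variable {G : Type} [Group G] [TopologicalSpace G]

theorem rel_loc (I : Idx) (N : LNorm G) (q : ℕ → G) (h h' : ℕ → R1 G) (t : ℕ)
    (hp : h (I.par t) = h' (I.par t)) (ht : h (I.th t) = h' (I.th t)) (x : G) :
    Rel I N q (D1 h) t x ↔ Rel I N q (D1 h') t x := by
  simp only [Rel, D1, hp, ht]

theorem relI_loc (I : Idx) (N : LNorm G) (q : ℕ → G) (h h' : ℕ → R1 G) (t i : ℕ)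
    (hp : h (I.par t) = h' (I.par t)) (ht : h (I.th t) = h' (I.th t)) (x : G) :
    RelI I N q (D1 h) t i x ↔ RelI I N q (D1 h') t i x := by
  simp only [RelI, Rel, D1, hp, ht]

theorem eps0_loc (q : ℕ → G) (h h' : ℕ → R1 G) (o j tN i : ℕ)
    (ho : h o = h' o) (hN : h tN = h' tN) :
    eps0 q (D1 h) o j tN i = eps0 q (D1 h') o j tN i := by
  simp only [eps0, D1, ho, hN]

end

theorem e1loc : E1LocStmt := by
  intro G _ _ I N q Γ W0 W1 t h h' a hh Q
  have hp : 0 < t → h (I.par t) = h' (I.par t) := fun ht => hh _ (I.par_lt t ht)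
  have hth : 0 < t → h (I.th t) = h' (I.th t) := fun ht => hh _ (I.th_lt t ht)
  have hp' : ∀ s, 0 < s → s < t → h (I.par s) = h' (I.par s) :=
    fun s hs hst => hh _ ((I.par_lt s hs).trans hst)
  have hth' : ∀ s, 0 < s → s < t → h (I.th s) = h' (I.th s) :=
    fun s hs hst => hh _ ((I.th_lt s hs).trans hst)
  exact
  { zero := Q.zero
    v_mem := fun ht => by rw [← hp ht]; exact Q.v_mem ht
    g_eq := fun ht => by rw [← hp ht]; exact Q.g_eq ht
    A_open := Q.A_open
    A_one := Q.A_one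
    L_open := Q.L_open
    L_one := Q.L_one
    A_W := Q.A_W
    L_W := Q.L_W
    nest := fun ht => by rw [← hp ht]; exact Q.nest ht
    gauge := Q.gauge
    right := fun ht => by rw [← hth ht]; exact Q.right ht
    inv := fun t' ht' h0 => by
      rw [← hh t' ht', ← hth' t' h0 ht']; exact Q.inv t' ht' h0
    V2A := fun p hpt => by rw [← hh p hpt]; exact Q.V2A p hpt
    θ_mem := Q.θ_mem
    θ_sep := Q.θ_sep
    V2 := Q.V2
    VVV := Q.VVV
    U := Q.U
    UI := Q.UI
    η_pos := Q.η_pos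
    η_le := fun s hs => by rw [← hh s hs]; exact Q.η_le s hs
    η_conj := fun p hpt => by rw [← hh p hpt]; exact Q.η_conj p hpt
    sib := fun t' ht' h0 hpar i' hi' hx x hrel => by
      have ht : 0 < t := h0.trans ht'
      rw [← hth ht, ← hth' t' h0 ht', ← hh t' ht']
      refine Q.sib t' ht' h0 hpar i' hi' ?_ x ?_
      · obtain ⟨x', hx'⟩ := hx
        exact ⟨x', (relI_loc I N q h h' t' i' (hp' t' h0 ht') (hth' t' h0 ht') x').2 hx'⟩
      · exact (rel_loc I N q h h' t (hp ht) (hth ht) x).2 hrel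
    pat := fun w hw hpw j' hj' o ho j hj tN htN h0 i hi h1 h2 x hrel y hy l hl => by
      have ht : 0 < t := lt_of_le_of_lt (Nat.zero_le _) hw
      have htN' : tN < t := htN.trans (I.th_lt t ht)
      rw [← hh w hw] at hy hl ⊢
      rw [← hth' tN h0 htN', ← eps0_loc q h h' o j tN i (hh o ho) (hh tN htN')]
      exact Q.pat w hw hpw j' hj' o ho j hj tN htN h0 i hi h1 h2 x
        ((rel_loc I N q h h' t (hp ht) (hth ht) x).2 hrel) y hy l hl }

end Pool.Agent.HNF.H44
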